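import Pool.Agent.Y863.AR.Diff
import Pool.Agent.H804.Cubes

/-!
# Pairs of primes between consecutive cubes, for small multiples of almost all even differences

In every window of `H ≥ L` integers below `N ^ (2 - ε)`, all but `ε H` of the `k` are such that one of the
differences `h = 2 k, 4 k, 6 k` (or `8 k`, if `3 ∤ k`) has the following property: for at least
`N ^ (1 - ε)` of the `n ≤ N` there are at least `n ^ (2 - ε)` pairs of primes `p, p + h` between `n ^ 3` and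
`(n + 1) ^ 3`.

The input is the theorem of the starting files on almost all differences (`Pool.Agent.Y863.AR.diffs`).
-/

set_option autoImplicit false

open Finset Filter

namespace Pool.Agent.Results.MP_d610d0_nt.AlmostAllDifferences

open Pool.Agent.H804.Cubes

/-- `T_h(n)`: the number of the pairs `(p, p + h)` of primes with `n ^ 3 < p` and `p + h < (n + 1) ^ 3`.
(`T_2(n)` is the `T(n)` of the question.) -/
noncomputable def T (h n : ℕ) : ℕ :=
  {p : ℕ | p.Prime ∧ (p + h).Prime ∧ n ^ 3 < p ∧ p + h < (n + 1) ^ 3}.ncard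

/-- `3` if `3 ∣ k`, otherwise `4` -/
def R (k : ℕ) : ℕ := if 3 ∣ k then 3 else 4

open Classical in
/-- the case `ε ≤ 1` -/
lemma core (ε : ℝ) (hε : 0 < ε) (hε1 : ε ≤ 1) : ∃ L : ℕ, ∀ᶠ N : ℕ in atTop,
    ∀ u H : ℕ, L ≤ H → ((u + H : ℕ) : ℝ) ≤ (N : ℝ) ^ (2 - ε) →
      (((Ioc u (u + H)).filter (fun k : ℕ => ∀ j : ℕ, 1 ≤ j → j ≤ R k →
        (((Icc 1 N).filter (fun n : ℕ => (n : ℝ) ^ (2 - ε) ≤ (T (2 * (j * k)) n : ℝ))).card : ℝ) <
          (N : ℝ) ^ (1 - ε))).card : ℝ) ≤ ε * H := by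
  obtain ⟨L, C, hC, hL, -⟩ := Pool.Agent.Y863.AR.diffs ε hε
  refine ⟨L, ?_⟩
  have hx := hL (ε / 12) (by positivity) (by linarith)
  have ht : Tendsto (fun N : ℕ => N ^ 3) atTop atTop := tendsto_pow_atTop (by norm_num)
  filter_upwards [ht.eventually hx, Pool.Agent.H804.Cubes.main (ε / 2) (by positivity) (by linarith),
    const_le 8 (ε / 2) (by positivity),
    const_le C (1 + ε) (by linarith), eventually_ge_atTop 2] with N h1 h2 h3 h5 hN u H hH1 hH2
  have hN1 : (1 : ℝ) ≤ N := by exact_mod_cast (by omega : 1 ≤ N)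
  have hN0 : (0 : ℝ) < N := by linarith
  -- the size of `C (u + H)`
  have hCH : C * (u + H) ≤ N ^ 3 := by
    have e1 : (N : ℝ) ^ (2 - ε) * (N : ℝ) ^ (1 + ε) = (N : ℝ) ^ 3 := by
      rw [← Real.rpow_add hN0, ← Real.rpow_natCast]
      congr 1
      push_cast
      ring
    have h6 : (C : ℝ) * ((u + H : ℕ) : ℝ) ≤ (N : ℝ) ^ 3 := by
      have h7 : (0 : ℝ) < (N : ℝ) ^ (2 - ε) := Real.rpow_pos_of_pos hN0 _
      calc (C : ℝ) * ((u + H : ℕ) : ℝ) ≤ C * (N : ℝ) ^ (2 - ε) :=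
            mul_le_mul_of_nonneg_left hH2 (Nat.cast_nonneg (α := ℝ) C)
        _ = (N : ℝ) ^ (2 - ε) * C := by ring
        _ ≤ (N : ℝ) ^ (2 - ε) * (N : ℝ) ^ (1 + ε) := mul_le_mul_of_nonneg_left h5 h7.le
        _ = _ := e1
    exact_mod_cast h6
  refine le_trans ?_ (h1 u H hH1 hCH)
  rw [Nat.cast_le]
  apply card_le_card
  intro k hk
  obtain ⟨hk1, hk2⟩ := mem_filter.1 hk
  refine mem_filter.2 ⟨hk1, fun j hj1 hj2 => ?_⟩
  have hkH : k ≤ u + H := (mem_Ioc.1 hk1).2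
  have hj4 : j ≤ 4 := hj2.trans (by unfold Pool.Agent.Y863.AR.R3; split_ifs <;> omega)
  by_contra hcon
  push Not at hcon
  apply absurd (hk2 j hj1 hj2)
  rw [not_lt]
  -- the finite set
  have hfin : {q : ℕ | (q.Prime ∧ (q + 2 * (j * k)).Prime) ∧ (((N ^ 3 : ℕ) : ℝ) / C) ≤ q ∧
      (q : ℝ) ≤ ((N ^ 3 : ℕ) : ℝ)}.Finite := by
    apply (Set.finite_le_nat (N ^ 3)).subset
    rintro p ⟨-, -, h7⟩
    show p ≤ N ^ 3
    exact_mod_cast h7
  have h7 := h2 {p : ℕ | p.Prime ∧ (p + 2 * (j * k)).Prime} hfin.toFinset (2 * (j * k))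
    (by
      rw [Set.Finite.coe_toFinset]
      rintro p ⟨h8, -⟩
      exact h8)
    (by
      intro p hp
      rw [Set.Finite.mem_toFinset] at hp
      obtain ⟨⟨h8, -⟩, -, h9⟩ := hp
      refine ⟨h8.one_le, lt_of_le_of_lt ?_ (cube_lt N)⟩
      exact_mod_cast h9)
    (by
      have e1 : (N : ℝ) ^ (2 - ε / 2) = (N : ℝ) ^ (2 - ε) * (N : ℝ) ^ (ε / 2) := by
        rw [← Real.rpow_add hN0]; congr 1; ring
      have h8 : ((2 * (j * k) : ℕ) : ℝ) ≤ 8 * ((u + H : ℕ) : ℝ) := by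
        have : 2 * (j * k) ≤ 8 * (u + H) := by
          have := Nat.mul_le_mul hj4 hkH
          omega
        exact_mod_cast this
      have h9 : (0 : ℝ) < (N : ℝ) ^ (2 - ε) := Real.rpow_pos_of_pos hN0 _
      rw [e1]
      nlinarith)
    (by
      have e0 : (hfin.toFinset.card : ℝ) =
          (Pool.Agent.Y863.AR.dif (2 * (j * k)) ((N ^ 3 : ℕ) / C) (N ^ 3 : ℕ) : ℝ) := by
        rw [Pool.Agent.Y863.AR.dif, Set.ncard_eq_toFinset_card _ hfin]
      rw [e0]
      refine le_trans ?_ hcon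
      have e1 : (((N ^ 3 : ℕ)) : ℝ) ^ (1 - ε / 12) = (N : ℝ) ^ (3 - ε / 2 / 2) := by
        push_cast
        rw [← Real.rpow_natCast, ← Real.rpow_mul hN0.le]
        congr 1
        push_cast
        ring
      rw [e1])
  have h8 := good_mono _ (ε / 2) ε (by linarith) N (by omega) h7
  refine h8.trans (good_le _ _ ?_ ε N)
  intro n
  apply Set.ncard_le_ncard
  · rintro p ⟨⟨h9, h10⟩, h11, h12⟩
    exact ⟨h9, h10, h11, h12⟩
  · apply (Set.finite_lt_nat ((n + 1) ^ 3)).subset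
    rintro p ⟨-, -, -, h6⟩
    exact lt_of_le_of_lt (Nat.le_add_right _ _) h6

open Classical in
/-- For every `ε > 0` there is `L` such that for all large `N` and all `u`, `H` with `L ≤ H` and
`u + H ≤ N ^ (2 - ε)`, for all but at most `ε H` of the `k` with `u < k ≤ u + H` one of the differences
`h = 2 k, 4 k, 6 k` (or `8 k`, if `3 ∤ k`) is such that for at least `N ^ (1 - ε)` of the `n ≤ N` there are
at least `n ^ (2 - ε)` pairs of primes `p, p + h` with `n ^ 3 < p` and `p + h < (n + 1) ^ 3`. -/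
theorem result (ε : ℝ) (hε : 0 < ε) : ∃ L : ℕ, ∀ᶠ N : ℕ in atTop,
    ∀ u H : ℕ, L ≤ H → ((u + H : ℕ) : ℝ) ≤ (N : ℝ) ^ (2 - ε) →
      (((Ioc u (u + H)).filter (fun k : ℕ => ∀ j : ℕ, 1 ≤ j → j ≤ R k →
        (((Icc 1 N).filter (fun n : ℕ => (n : ℝ) ^ (2 - ε) ≤ (T (2 * (j * k)) n : ℝ))).card : ℝ) <
          (N : ℝ) ^ (1 - ε))).card : ℝ) ≤ ε * H := by
  by_cases hε1 : ε ≤ 1
  · exact core ε hε hε1
  · refine ⟨0, Eventually.of_forall fun N u H _ _ => ?_⟩
    have h1 : ((Ioc u (u + H)).card : ℝ) ≤ ε * H := by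
      rw [Nat.card_Ioc, Nat.add_sub_cancel_left]
      have : (0 : ℝ) ≤ H := Nat.cast_nonneg _
      nlinarith
    refine le_trans ?_ h1
    rw [Nat.cast_le]
    exact card_le_card (filter_subset _ _)

end Pool.Agent.Results.MP_d610d0_nt.AlmostAllDifferences
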