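import Pool.Agent.Y823.G212.GapsInterval
import Pool.Agent.H804.Cubes

/-!
# Short gaps between consecutive primes between consecutive cubes

For every `ε > 0` and all large `N` one even difference `d ≤ 212` has the following property: for at least
`N ^ (1 - ε)` of the `n ≤ N` there are at least `n ^ (2 - ε)` pairs of consecutive primes `p, p + d` between
`n ^ 3` and `(n + 1) ^ 3`. (The trivial upper bounds are `N` and `3 n ^ 2 + 3 n`.)

The input is the theorem `DHL[45, 2]` of the starting files (`Pool.Agent.Y826.ZC`), in the form of the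
lower bound `x ^ (1 - δ)` for the number of the gaps of length at most `212` up to `x`.
-/

set_option autoImplicit false

open Finset Filter

namespace Pool.Agent.Results.MP_d610d0_nt.ShortGaps

open Pool.Agent.H804.Cubes

/-- The number of the pairs `(p, p + d)` of consecutive primes with `n ^ 3 < p` and
`p + d < (n + 1) ^ 3`. -/
noncomputable def consecutive (d n : ℕ) : ℕ :=
  {p : ℕ | p.Prime ∧ (p + d).Prime ∧ (∀ r : ℕ, p < r → r < p + d → ¬ r.Prime) ∧
    n ^ 3 < p ∧ p + d < (n + 1) ^ 3}.ncard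

open Classical in
/-- the set of the primes with a short gap below `N ^ 3` is large -/
lemma short_large (ε : ℝ) (hε : 0 < ε) (hε1 : ε ≤ 1) : ∀ᶠ N : ℕ in atTop,
    212 * (N : ℝ) ^ (3 - ε / 2) ≤ (((Icc 1 (N ^ 3)).filter (fun p : ℕ =>
      2 < p ∧ Pool.Agent.Y823.G212.GapsInterval.Short p)).card : ℝ) := by
  have ht : Tendsto (fun N : ℕ => ((N : ℝ)) ^ (3 : ℕ)) atTop atTop :=
    (tendsto_pow_atTop (by norm_num)).comp tendsto_natCast_atTop_atTop
  have h8 : ∀ᶠ N : ℕ in atTop, (215 : ℝ) ≤ (N : ℝ) ^ (ε / 4) :=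
    ((tendsto_rpow_atTop (by positivity)).comp tendsto_natCast_atTop_atTop).eventually_ge_atTop _
  filter_upwards [ht.eventually (Pool.Agent.Y823.G212.GapsInterval.core (ε / 12) (by positivity)),
    h8, eventually_ge_atTop 1] with N h1 h2 hN
  have hN1 : (1 : ℝ) ≤ N := by exact_mod_cast hN
  have hN0 : (0 : ℝ) < N := by linarith
  have h3 := h1 2
  rw [floor_cube] at h3
  refine le_trans ?_ h3
  have e1 : (((N : ℝ)) ^ (3 : ℕ)) ^ (1 - ε / 12) = (N : ℝ) ^ (3 - ε / 4) := by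
    rw [← Real.rpow_natCast, ← Real.rpow_mul hN0.le]
    congr 1
    push_cast
    ring
  have e2 : (N : ℝ) ^ (3 - ε / 4) = (N : ℝ) ^ (3 - ε / 2) * (N : ℝ) ^ (ε / 4) := by
    rw [← Real.rpow_add hN0]
    congr 1
    ring
  rw [e1]
  push_cast
  have h5 : (1 : ℝ) ≤ (N : ℝ) ^ (3 - ε / 2) := Real.one_le_rpow hN1 (by linarith)
  rw [e2]
  nlinarith

/-- the gap after `p` is `d` -/
def Gap (d p : ℕ) : Prop := p.Prime ∧ (p + d).Prime ∧ ∀ r : ℕ, p < r → r < p + d → ¬ r.Prime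

open Classical in
/-- one difference is frequent, for every `N` -/
lemma core (ε : ℝ) (hε : 0 < ε) (hε1 : ε ≤ 1) : ∀ᶠ N : ℕ in atTop,
    ∃ d ∈ (Icc 2 212).filter (fun d => Even d),
    (N : ℝ) ^ (1 - ε) ≤
      (((Icc 1 N).filter (fun n : ℕ => (n : ℝ) ^ (2 - ε) ≤ (consecutive d n : ℝ))).card : ℝ) := by
  filter_upwards [Pool.Agent.H804.Cubes.main ε hε hε1, short_large ε hε hε1, const_le 212 (2 - ε) (by linarith),
    eventually_ge_atTop 1] with N h1 h2 h3 hN
  have hN1 : (1 : ℝ) ≤ N := by exact_mod_cast hN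
  obtain ⟨A, hA⟩ : ∃ A, A = (Icc 1 (N ^ 3)).filter
    (fun p : ℕ => 2 < p ∧ Pool.Agent.Y823.G212.GapsInterval.Short p) := ⟨_, rfl⟩
  rw [← hA] at h2
  obtain ⟨D, hD⟩ : ∃ D, D = (Icc 2 212).filter (fun d => Even d) := ⟨_, rfl⟩
  have hsub : A ⊆ D.biUnion (fun d => A.filter (fun p => Gap d p)) := by
    intro p hp
    have hp' := hp
    rw [hA, mem_filter, mem_Icc] at hp'
    obtain ⟨⟨_, _⟩, hp2, hpp, q, hq, hpq, hq2, hr⟩ := hp'
    refine mem_biUnion.2 ⟨q - p, ?_, mem_filter.2 ⟨hp, hpp, ?_, ?_⟩⟩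
    · have ho1 : Odd p := hpp.odd_of_ne_two (by omega)
      have ho2 : Odd q := hq.odd_of_ne_two (by omega)
      have he : Even (q - p) := Nat.Odd.sub_odd ho2 ho1
      rw [hD, mem_filter, mem_Icc]
      refine ⟨⟨?_, by omega⟩, he⟩
      obtain ⟨t, ht⟩ := he
      omega
    · rwa [Nat.add_sub_cancel' hpq.le]
    · rw [Nat.add_sub_cancel' hpq.le]
      exact hr
  have hcard : D.card ≤ 212 := by
    rw [hD]
    exact (card_filter_le _ _).trans (by simp)
  have hex : ∃ d ∈ D, (N : ℝ) ^ (3 - ε / 2) ≤ ((A.filter (fun p => Gap d p)).card : ℝ) := by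
    by_contra hcon
    push Not at hcon
    have hDne : D.Nonempty := ⟨2, by rw [hD]; decide⟩
    have h5 : (A.card : ℝ) ≤ ∑ d ∈ D, ((A.filter (fun p => Gap d p)).card : ℝ) := by
      have := (card_le_card hsub).trans card_biUnion_le
      exact_mod_cast this
    have h6 : ∑ d ∈ D, ((A.filter (fun p => Gap d p)).card : ℝ) < ∑ d ∈ D, (N : ℝ) ^ (3 - ε / 2) :=
      sum_lt_sum_of_nonempty hDne hcon
    rw [sum_const, nsmul_eq_mul] at h6
    have h7 : (D.card : ℝ) * (N : ℝ) ^ (3 - ε / 2) ≤ 212 * (N : ℝ) ^ (3 - ε / 2) :=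
      mul_le_mul_of_nonneg_right (by exact_mod_cast hcard) (Real.rpow_nonneg (by linarith) _)
    linarith
  obtain ⟨d, hd, hdA⟩ := hex
  have hd' := hd
  rw [hD, mem_filter, mem_Icc] at hd'
  refine ⟨d, by rw [← hD]; exact hd, ?_⟩
  have h4 := h1 {p | Gap d p} (A.filter (fun p => Gap d p)) d
    (by
      intro p hp
      rw [mem_coe, mem_filter] at hp
      exact hp.2)
    (by
      intro p hp
      rw [mem_filter, hA, mem_filter, mem_Icc] at hp
      exact ⟨hp.1.1.1, lt_of_le_of_lt hp.1.1.2 (cube_lt N)⟩)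
    (le_trans (by exact_mod_cast hd'.1.2) h3) hdA
  refine h4.trans (good_le _ _ ?_ ε N)
  intro n
  apply Set.ncard_le_ncard
  · rintro p ⟨⟨h5, h6, h7⟩, h8, h9⟩
    exact ⟨h5, h6, h7, h8, h9⟩
  · apply (Set.finite_lt_nat ((n + 1) ^ 3)).subset
    rintro p ⟨-, -, -, -, h6⟩
    exact lt_of_le_of_lt (Nat.le_add_right _ _) h6

open Classical in
/-- For every `ε > 0` and all large `N` there is an even `d` with `2 ≤ d ≤ 212` such that for at least
`N ^ (1 - ε)` of the `n ≤ N` there are at least `n ^ (2 - ε)` pairs of consecutive primes `p, p + d` with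
`n ^ 3 < p` and `p + d < (n + 1) ^ 3`. -/
theorem result (ε : ℝ) (hε : 0 < ε) : ∀ᶠ N : ℕ in atTop, ∃ d : ℕ, Even d ∧ 2 ≤ d ∧ d ≤ 212 ∧
    (N : ℝ) ^ (1 - ε) ≤
      (((Icc 1 N).filter (fun n : ℕ => (n : ℝ) ^ (2 - ε) ≤ (consecutive d n : ℝ))).card : ℝ) := by
  have hm : (0 : ℝ) < min ε 1 := lt_min hε one_pos
  filter_upwards [core (min ε 1) hm (min_le_right _ _), eventually_ge_atTop 1] with N h1 hN
  obtain ⟨d, hd, h⟩ := h1
  rw [mem_filter, mem_Icc] at hd
  exact ⟨d, hd.2, hd.1.1, hd.1.2, good_mono _ _ _ (min_le_left _ _) N hN h⟩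

end Pool.Agent.Results.MP_d610d0_nt.ShortGaps
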