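import Pool.Agent.TH899.UG.TD6
import Pool.Agent.H804.Cubes

/-!
# Pairs of primes between consecutive cubes, for a third of all even differences

For every `H` between a constant and `N ^ (2 - ε)`, for at least `(1 / 3 - ε) H` of the `k ≤ H`: for at least
`N ^ (1 - ε)` of the `n ≤ N` there are at least `n ^ (2 - ε)` pairs of primes `p, p + 2 k` between `n ^ 3` and
`(n + 1) ^ 3`.

The input is the theorem of the starting files that a third of the multiples of every even number are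
differences of primes at every scale (`Pool.Agent.TH899.UG.TD.thirdq`).
-/

set_option autoImplicit false

open Finset Filter

namespace Pool.Agent.Results.MP_d610d0_nt.ThirdOfDifferences

open Pool.Agent.H804.Cubes

/-- `T_h(n)`: the number of the pairs `(p, p + h)` of primes with `n ^ 3 < p` and `p + h < (n + 1) ^ 3`.
(`T_2(n)` is the `T(n)` of the question.) -/
noncomputable def T (h n : ℕ) : ℕ :=
  {p : ℕ | p.Prime ∧ (p + h).Prime ∧ n ^ 3 < p ∧ p + h < (n + 1) ^ 3}.ncard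

open Classical in
/-- the case `ε ≤ 1` -/
lemma core (ε : ℝ) (hε : 0 < ε) (hε1 : ε ≤ 1) : ∃ C : ℕ, ∀ᶠ N : ℕ in atTop,
    ∀ H : ℕ, C ≤ H → (H : ℝ) ≤ (N : ℝ) ^ (2 - ε) →
      (1 / 3 - ε) * (H : ℝ) ≤ (((Icc 1 H).filter (fun k : ℕ => (N : ℝ) ^ (1 - ε) ≤
        (((Icc 1 N).filter (fun n : ℕ => (n : ℝ) ^ (2 - ε) ≤ (T (2 * k) n : ℝ))).card : ℝ))).card : ℝ) := by
  obtain ⟨C, hC⟩ := Pool.Agent.TH899.UG.TD.thirdq ε 1 hε one_pos
  refine ⟨C, ?_⟩
  have hx := hC 1 le_rfl (ε / 24) (by positivity)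
  have ht : Tendsto (fun N : ℕ => N ^ 3 / 2) atTop atTop := by
    apply tendsto_atTop_mono (f := fun N => N - 1)
    · intro N
      rw [Nat.le_div_iff_mul_le two_pos]
      rcases Nat.lt_or_ge N 2 with h | h
      · interval_cases N <;> simp
      · have : N * 4 ≤ N * N ^ 2 := Nat.mul_le_mul_left _ (by nlinarith)
        have e : N * N ^ 2 = N ^ 3 := by ring
        omega
    · exact tendsto_sub_atTop_nat 1
  filter_upwards [ht.eventually hx, Pool.Agent.H804.Cubes.main (ε / 2) (by positivity) (by linarith),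
    const_le 2 (ε / 2) (by positivity), const_le 4 (ε / 8) (by positivity),
    const_le (4 * (C + 1)) (1 + ε) (by linarith), eventually_ge_atTop 2] with N h1 h2 h3 h4 h5 hN H hH1 hH2
  have hN1 : (1 : ℝ) ≤ N := by exact_mod_cast (by omega : 1 ≤ N)
  have hN0 : (0 : ℝ) < N := by linarith
  have hcube : (8 : ℕ) ≤ N ^ 3 := by
    calc 8 = 2 ^ 3 := by norm_num
      _ ≤ N ^ 3 := Nat.pow_le_pow_left hN 3
  have hxhalf : N ^ 3 ≤ 4 * (N ^ 3 / 2) := by omega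
  have hx2 : 2 * (N ^ 3 / 2) ≤ N ^ 3 := by omega
  -- the size of `C H`
  have hCH : C * (1 ^ 2 * 1 * H) ≤ N ^ 3 / 2 := by
    have e1 : (N : ℝ) ^ (2 - ε) * (N : ℝ) ^ (1 + ε) = (N : ℝ) ^ 3 := by
      rw [← Real.rpow_add hN0, ← Real.rpow_natCast]
      congr 1
      push_cast
      ring
    have h6 : 4 * ((C : ℝ) * H) ≤ (N : ℝ) ^ 3 := by
      have h7 : (0 : ℝ) < (N : ℝ) ^ (2 - ε) := Real.rpow_pos_of_pos hN0 _
      calc 4 * ((C : ℝ) * H) ≤ 4 * (C * (N : ℝ) ^ (2 - ε)) := by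
            have := mul_le_mul_of_nonneg_left hH2 (Nat.cast_nonneg (α := ℝ) C)
            linarith
        _ ≤ (N : ℝ) ^ (2 - ε) * (4 * (C + 1)) := by nlinarith
        _ ≤ (N : ℝ) ^ (2 - ε) * (N : ℝ) ^ (1 + ε) := mul_le_mul_of_nonneg_left h5 h7.le
        _ = _ := e1
    have h8 : 4 * (C * H) ≤ N ^ 3 := by exact_mod_cast h6
    have h9 : 1 ^ 2 * 1 * H = H := by ring
    rw [h9]
    omega
  have h6 := h1 1 (Nat.coprime_one_right 1) 1 H le_rfl hH1 hCH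
  refine h6.trans ?_
  rw [Nat.cast_le]
  apply card_le_card
  intro k hk
  obtain ⟨hk1, hk2⟩ := mem_filter.1 hk
  refine mem_filter.2 ⟨hk1, ?_⟩
  have hkH : k ≤ H := (mem_Icc.1 hk1).2
  -- the finite set
  have hfin : {p : ℕ | p.Prime ∧ (p + 2 * 1 * 1 * k).Prime ∧ p ≡ 1 [MOD 1] ∧ ((N ^ 3 / 2 : ℕ) : ℝ) ≤ p ∧
      ((p + 2 * 1 * 1 * k : ℕ) : ℝ) ≤ (1 + 1) * ((N ^ 3 / 2 : ℕ) : ℝ)}.Finite := by
    apply (Set.finite_le_nat (N ^ 3)).subset
    rintro p ⟨-, -, -, -, h7⟩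
    have h8 : p + 2 * 1 * 1 * k ≤ 2 * (N ^ 3 / 2) := by
      have : ((p + 2 * 1 * 1 * k : ℕ) : ℝ) ≤ ((2 * (N ^ 3 / 2) : ℕ) : ℝ) := by
        push_cast at h7 ⊢
        linarith
      exact_mod_cast this
    show p ≤ N ^ 3
    omega
  have h7 := h2 {p : ℕ | p.Prime ∧ (p + 2 * k).Prime} hfin.toFinset (2 * k)
    (by
      rw [Set.Finite.coe_toFinset]
      rintro p ⟨h8, h9, -⟩
      refine ⟨h8, ?_⟩
      have e : 2 * 1 * 1 * k = 2 * k := by ring
      rwa [e] at h9)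
    (by
      intro p hp
      rw [Set.Finite.mem_toFinset] at hp
      obtain ⟨h8, -, -, -, h9⟩ := hp
      refine ⟨h8.one_le, lt_of_le_of_lt ?_ (cube_lt N)⟩
      have h10 : p + 2 * 1 * 1 * k ≤ 2 * (N ^ 3 / 2) := by
        have : ((p + 2 * 1 * 1 * k : ℕ) : ℝ) ≤ ((2 * (N ^ 3 / 2) : ℕ) : ℝ) := by
          push_cast at h9 ⊢
          linarith
        exact_mod_cast this
      omega)
    (by
      have e1 : (N : ℝ) ^ (2 - ε / 2) = (N : ℝ) ^ (2 - ε) * (N : ℝ) ^ (ε / 2) := by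
        rw [← Real.rpow_add hN0]; congr 1; ring
      have h8 : (k : ℝ) ≤ H := by exact_mod_cast hkH
      have h9 : (0 : ℝ) < (N : ℝ) ^ (2 - ε) := Real.rpow_pos_of_pos hN0 _
      rw [e1]
      push_cast
      nlinarith)
    (by
      have e0 : (hfin.toFinset.card : ℝ) =
          (Pool.Agent.TH899.UG.TD.prq 1 (N ^ 3 / 2) 1 1 (2 * 1 * 1 * k) : ℝ) := by
        rw [Pool.Agent.TH899.UG.TD.prq, Set.ncard_eq_toFinset_card _ hfin]
      rw [e0]
      refine le_trans ?_ hk2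
      have h8 : (N : ℝ) ^ 3 / 4 ≤ ((N ^ 3 / 2 : ℕ) : ℝ) := by
        have : (((N ^ 3 : ℕ)) : ℝ) ≤ ((4 * (N ^ 3 / 2) : ℕ) : ℝ) := by exact_mod_cast hxhalf
        push_cast at this
        linarith
      have h9 : ((N : ℝ) ^ 3 / 4) ^ (1 - ε / 24) ≤ ((N ^ 3 / 2 : ℕ) : ℝ) ^ (1 - ε / 24) :=
        Real.rpow_le_rpow (by positivity) h8 (by linarith)
      refine le_trans ?_ h9
      have e1 : ((N : ℝ) ^ 3) ^ (1 - ε / 24) = (N : ℝ) ^ (3 - ε / 8) := by
        rw [← Real.rpow_natCast, ← Real.rpow_mul hN0.le]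
        congr 1
        push_cast
        ring
      rw [Real.div_rpow (by positivity) (by norm_num), e1]
      have h10 : (4 : ℝ) ^ (1 - ε / 24) ≤ 4 := by
        calc (4 : ℝ) ^ (1 - ε / 24) ≤ 4 ^ (1 : ℝ) :=
              Real.rpow_le_rpow_of_exponent_le (by norm_num) (by linarith)
          _ = 4 := Real.rpow_one 4
      have e2 : (N : ℝ) ^ (3 - ε / 8) = (N : ℝ) ^ (3 - ε / 2 / 2) * (N : ℝ) ^ (ε / 8) := by
        rw [← Real.rpow_add hN0]; congr 1; ring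
      have h11 : (0 : ℝ) < (N : ℝ) ^ (3 - ε / 2 / 2) := Real.rpow_pos_of_pos hN0 _
      rw [le_div_iff₀ (Real.rpow_pos_of_pos (by norm_num) _), e2]
      exact mul_le_mul_of_nonneg_left (h10.trans h4) h11.le)
  have h8 := good_mono _ (ε / 2) ε (by linarith) N (by omega) h7
  refine h8.trans (good_le _ _ ?_ ε N)
  intro n
  apply Set.ncard_le_ncard
  · rintro p ⟨⟨h9, h10⟩, h11, h12⟩
    exact ⟨h9, h10, h11, h12⟩
  · apply (Set.finite_lt_nat ((n + 1) ^ 3)).subset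
    rintro p ⟨-, -, -, h6⟩
    exact lt_of_le_of_lt (Nat.le_add_right _ _) h6

open Classical in
/-- For every `ε > 0` there is `C` such that for all large `N` and all `H` with `C ≤ H ≤ N ^ (2 - ε)`, for at
least `(1 / 3 - ε) H` of the `k ≤ H` the following holds: for at least `N ^ (1 - ε)` of the `n ≤ N` there are
at least `n ^ (2 - ε)` pairs of primes `p, p + 2 k` with `n ^ 3 < p` and `p + 2 k < (n + 1) ^ 3`. -/
theorem result (ε : ℝ) (hε : 0 < ε) : ∃ C : ℕ, ∀ᶠ N : ℕ in atTop,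
    ∀ H : ℕ, C ≤ H → (H : ℝ) ≤ (N : ℝ) ^ (2 - ε) →
      (1 / 3 - ε) * (H : ℝ) ≤ (((Icc 1 H).filter (fun k : ℕ => (N : ℝ) ^ (1 - ε) ≤
        (((Icc 1 N).filter (fun n : ℕ => (n : ℝ) ^ (2 - ε) ≤ (T (2 * k) n : ℝ))).card : ℝ))).card : ℝ) := by
  by_cases hε1 : ε ≤ 1
  · exact core ε hε hε1
  · refine ⟨0, Eventually.of_forall fun N H _ _ => ?_⟩
    have h1 : (1 / 3 - ε) * (H : ℝ) ≤ 0 :=
      mul_nonpos_of_nonpos_of_nonneg (by linarith) (Nat.cast_nonneg _)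
    exact h1.trans (Nat.cast_nonneg _)

end Pool.Agent.Results.MP_d610d0_nt.ThirdOfDifferences
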